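import Mathlib

/-! Interleavings of two chains. -/

namespace Pool.Agent.Q296.AH

open Finset

/-- Bijections of two chains of sizes `a`, `b` with `Fin n`, increasing on each chain. -/
abbrev TC (a b n : ℕ) : Type :=
  {g : Fin a ⊕ Fin b ≃ Fin n //
    StrictMono (fun i => g (Sum.inl i)) ∧ StrictMono (fun i => g (Sum.inr i))}

noncomputable instance (a b n : ℕ) : Fintype (TC a b n) := Fintype.ofFinite _

/-- image of the first chain -/
def im {a b n : ℕ} (g : TC a b n) : Finset (Fin n) := univ.image (fun i => g.1 (Sum.inl i))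

lemma card_im {a b n : ℕ} (g : TC a b n) : (im g).card = a := by
  unfold im
  rw [card_image_of_injective _ g.2.1.injective]; simp

lemma im_compl {a b n : ℕ} (g : TC a b n) :
    (im g)ᶜ = univ.image (fun i => g.1 (Sum.inr i)) := by
  ext x
  simp only [im, mem_compl, mem_image, mem_univ, true_and, not_exists]
  constructor
  · intro h
    rcases hx : g.1.symm x with i | i
    · exact absurd (by rw [← hx]; simp) (h i)
    · exact ⟨i, by rw [← hx]; simp⟩
  · rintro ⟨i, rfl⟩ j hj
    have := g.1.injective hj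
    cases this

lemma im_inj {a b n : ℕ} : Function.Injective (im (a := a) (b := b) (n := n)) := by
  intro g g' h
  apply Subtype.ext
  apply Equiv.ext
  rintro (i | i)
  · have h1 := orderEmbOfFin_unique (s := im g) (card_im g) (f := fun i => g.1 (Sum.inl i))
      (fun i => by simp [im]) g.2.1
    have h2 := orderEmbOfFin_unique (s := im g) (card_im g) (f := fun i => g'.1 (Sum.inl i))
      (fun i => by rw [h]; simp [im]) g'.2.1
    exact congrFun (h1.trans h2.symm) i
  · have hc : ((im g)ᶜ).card = b := by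
      rw [im_compl, card_image_of_injective _ g.2.2.injective]; simp
    have h1 := orderEmbOfFin_unique (s := (im g)ᶜ) hc (f := fun i => g.1 (Sum.inr i))
      (fun i => by rw [im_compl]; simp) g.2.2
    have h2 := orderEmbOfFin_unique (s := (im g)ᶜ) hc (f := fun i => g'.1 (Sum.inr i))
      (fun i => by rw [h, im_compl]; simp) g'.2.2
    exact congrFun (h1.trans h2.symm) i

lemma im_surj {a b n : ℕ} (hn : n = a + b) (S : Finset (Fin n)) (hS : S.card = a) :
    ∃ g : TC a b n, im g = S := by
  have hc : (Sᶜ).card = b := by rw [card_compl, hS]; simp; omega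
  refine ⟨⟨finSumEquivOfFinset hS hc, ?_, ?_⟩, ?_⟩
  · intro i j hij
    simp only [finSumEquivOfFinset_inl]
    exact (S.orderEmbOfFin hS).strictMono hij
  · intro i j hij
    simp only [finSumEquivOfFinset_inr]
    exact ((Sᶜ).orderEmbOfFin hc).strictMono hij
  · ext x
    simp only [im, finSumEquivOfFinset_inl, mem_image, mem_univ, true_and]
    have := range_orderEmbOfFin S hS
    constructor
    · rintro ⟨i, rfl⟩; exact orderEmbOfFin_mem S hS i
    · intro hx
      have : x ∈ Set.range (S.orderEmbOfFin hS) := by rw [this]; exact_mod_cast hx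
      exact this

/-- sum over interleavings with prescribed first position -/
lemma sum_first {m b n : ℕ} (hn : n = (m + 1) + b) (i : Fin n) (F : Finset (Fin n) → ℚ) :
    ∑ g ∈ univ.filter (fun g : TC (m+1) b n => g.1 (Sum.inl 0) = i), F (im g)
      = ∑ T ∈ powersetCard m (Ioi i), F (insert i T) := by
  symm
  have key : ∀ T ∈ powersetCard m (Ioi i), (insert i T).card = m + 1 := by
    intro T hT
    rw [mem_powersetCard] at hT
    rw [card_insert_of_notMem, hT.2]
    intro h; have := hT.1 h; simp at this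
  have key2 : ∀ g : TC (m+1) b n, g.1 (Sum.inl 0) = i → ∃ T ∈ powersetCard m (Ioi i),
      insert i T = im g := by
    intro g hg
    refine ⟨(im g).erase i, ?_, ?_⟩
    · rw [mem_powersetCard]
      constructor
      · intro x hx
        simp only [mem_erase, im, mem_image, mem_univ, true_and] at hx
        obtain ⟨hx1, j, rfl⟩ := hx
        simp only [mem_Ioi]
        rw [← hg]
        apply g.2.1
        rw [Fin.pos_iff_ne_zero]
        rintro rfl
        exact hx1 hg
      · rw [card_erase_of_mem, card_im]; rfl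
        simp only [im, mem_image, mem_univ, true_and]
        exact ⟨0, hg⟩
    · rw [insert_erase]
      simp only [im, mem_image, mem_univ, true_and]
      exact ⟨0, hg⟩
  have key3 : ∀ g : TC (m+1) b n, ∀ T ∈ powersetCard m (Ioi i), im g = insert i T →
      g.1 (Sum.inl 0) = i := by
    intro g T hT hg
    rw [mem_powersetCard] at hT
    have h1 : i ∈ im g := by rw [hg]; simp
    simp only [im, mem_image, mem_univ, true_and] at h1
    obtain ⟨j, hj⟩ := h1
    have h2 : g.1 (Sum.inl 0) ∈ insert i T := by rw [← hg]; simp [im]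
    rw [mem_insert] at h2
    rcases h2 with h2 | h2
    · exact h2
    · have := hT.1 h2
      rw [mem_Ioi, ← hj] at this
      have h3 : j < 0 := g.2.1.lt_iff_lt.1 this
      exact absurd h3 (Fin.not_lt_zero j)
  choose G hG using fun (T : Finset (Fin n)) (hT : T ∈ powersetCard m (Ioi i)) =>
    im_surj (b := b) hn (insert i T) (key T hT)
  refine sum_bij G ?_ ?_ ?_ ?_
  · intro T hT
    rw [mem_filter]
    exact ⟨mem_univ _, key3 _ T hT (hG T hT)⟩
  · intro T hT T' hT' h
    have h1 := hG T hT
    have h2 := hG T' hT'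
    rw [h, h2] at h1
    rw [mem_powersetCard] at hT hT'
    have e1 : (insert i T).erase i = T := erase_insert (fun h => by have := hT.1 h; simp at this)
    have e2 : (insert i T').erase i = T' := erase_insert (fun h => by have := hT'.1 h; simp at this)
    rw [← e1, ← e2, h1]
  · intro g hg
    rw [mem_filter] at hg
    obtain ⟨T, hT, hT'⟩ := key2 g hg.2
    exact ⟨T, hT, im_inj ((hG T hT).trans hT')⟩
  · intro T hT
    rw [hG T hT]

/-- reflection of the positions after `i` -/
def refl {n : ℕ} (i x : Fin n) : Fin n :=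
  if h : i < x then ⟨i.1 + n - x.1, by have := x.2; have : i.1 < x.1 := h; omega⟩ else x

lemma refl_mem {n : ℕ} (i x : Fin n) (h : i < x) : i < refl i x := by
  unfold refl
  rw [dif_pos h, Fin.lt_def]
  have := x.2
  simp only; omega

lemma refl_nat {n : ℕ} (i x : Fin n) (h : i < x) : (refl i x).1 = i.1 + n - x.1 := by
  unfold refl
  rw [dif_pos h]

lemma refl_refl {n : ℕ} (i x : Fin n) (h : i < x) : refl i (refl i x) = x := by
  have h1 := refl_mem i x h
  apply Fin.ext
  rw [refl_nat _ _ h1, refl_nat _ _ h]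
  have := x.2; have h2 : i.1 < x.1 := h
  omega

lemma refl_val {n : ℕ} (i x : Fin n) (h : i < x) : ((refl i x).1 : ℚ) + x.1 = i.1 + n := by
  rw [refl_nat _ _ h]
  have := x.2; have h2 : i.1 < x.1 := h
  have : i.1 + n - x.1 + x.1 = i.1 + n := by omega
  exact_mod_cast this

lemma sum_tails {n m : ℕ} (i : Fin n) :
    ∑ T ∈ powersetCard m (Ioi i), ∑ x ∈ T, (x.1 : ℚ)
      = ((n - 1 - i.1).choose m : ℚ) * (m * (i.1 + n)) / 2 := by
  have h1 : ∑ T ∈ powersetCard m (Ioi i), ∑ x ∈ T, (x.1 : ℚ)
      = ∑ T ∈ powersetCard m (Ioi i), ∑ x ∈ T, ((refl i x).1 : ℚ) := by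
    refine sum_nbij' (fun T => T.image (refl i)) (fun T => T.image (refl i)) ?_ ?_ ?_ ?_ ?_
    · intro T hT
      rw [mem_powersetCard] at hT ⊢
      constructor
      · intro y hy
        rw [mem_image] at hy
        obtain ⟨x, hx, rfl⟩ := hy
        rw [mem_Ioi]; exact refl_mem i x (mem_Ioi.1 (hT.1 hx))
      · rw [card_image_of_injOn, hT.2]
        intro x hx y hy hxy
        rw [← refl_refl i x (mem_Ioi.1 (hT.1 hx)), ← refl_refl i y (mem_Ioi.1 (hT.1 hy))]
        have hxy' : refl i x = refl i y := hxy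
        rw [hxy']
    · intro T hT
      rw [mem_powersetCard] at hT ⊢
      constructor
      · intro y hy
        rw [mem_image] at hy
        obtain ⟨x, hx, rfl⟩ := hy
        rw [mem_Ioi]; exact refl_mem i x (mem_Ioi.1 (hT.1 hx))
      · rw [card_image_of_injOn, hT.2]
        intro x hx y hy hxy
        rw [← refl_refl i x (mem_Ioi.1 (hT.1 hx)), ← refl_refl i y (mem_Ioi.1 (hT.1 hy))]
        have hxy' : refl i x = refl i y := hxy
        rw [hxy']
    · intro T hT
      rw [mem_powersetCard] at hT
      rw [image_image]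
      conv_rhs => rw [← image_id (s := T)]
      apply image_congr
      intro x hx
      exact refl_refl i x (mem_Ioi.1 (hT.1 hx))
    · intro T hT
      rw [mem_powersetCard] at hT
      rw [image_image]
      conv_rhs => rw [← image_id (s := T)]
      apply image_congr
      intro x hx
      exact refl_refl i x (mem_Ioi.1 (hT.1 hx))
    · intro T hT
      rw [mem_powersetCard] at hT
      rw [sum_image]
      · apply sum_congr rfl
        intro x hx
        rw [refl_refl i x (mem_Ioi.1 (hT.1 hx))]
      · intro x hx y hy hxy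
        rw [← refl_refl i x (mem_Ioi.1 (hT.1 hx)), ← refl_refl i y (mem_Ioi.1 (hT.1 hy))]
        rw [hxy]
  have h2 : (∑ T ∈ powersetCard m (Ioi i), ∑ x ∈ T, ((refl i x).1 : ℚ))
      + ∑ T ∈ powersetCard m (Ioi i), ∑ x ∈ T, (x.1 : ℚ)
      = ∑ T ∈ powersetCard m (Ioi i), (m * (i.1 + n) : ℚ) := by
    rw [← sum_add_distrib]
    apply sum_congr rfl
    intro T hT
    rw [mem_powersetCard] at hT
    rw [← sum_add_distrib, sum_congr rfl (fun x hx => refl_val i x (mem_Ioi.1 (hT.1 hx)))]
    rw [sum_const, hT.2, nsmul_eq_mul]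
  rw [sum_const, card_powersetCard, Fin.card_Ioi, nsmul_eq_mul, ← h1] at h2
  linarith

/-- the main summation formula: weight depending on the first position -/
lemma sum_weight {m b n : ℕ} (hn : n = (m + 1) + b) (φ : ℕ → ℚ) :
    ∑ g : TC (m+1) b n, φ (g.1 (Sum.inl 0)).1 * ∑ a, ((g.1 (Sum.inl a)).1 : ℚ)
      = ∑ i : Fin n, φ i.1 * (((n - 1 - i.1).choose m : ℚ) * (i.1 + m * (i.1 + n) / 2)) := by
  rw [← Finset.sum_fiberwise_of_maps_to (s := univ) (t := univ) (g := fun g : TC (m+1) b n => g.1 (Sum.inl 0))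
    (fun _ _ => mem_univ _)]
  apply sum_congr rfl
  intro i _
  have h1 : ∀ g ∈ univ.filter (fun g : TC (m+1) b n => g.1 (Sum.inl 0) = i),
      φ (g.1 (Sum.inl 0)).1 * ∑ a, ((g.1 (Sum.inl a)).1 : ℚ) = φ i.1 * ∑ x ∈ im g, (x.1 : ℚ) := by
    intro g hg
    rw [mem_filter] at hg
    rw [hg.2, im, sum_image (fun x _ y _ h => g.2.1.injective h)]
  rw [sum_congr rfl h1, sum_first hn i (fun S => φ i.1 * ∑ x ∈ S, (x.1 : ℚ))]
  have h2 : ∀ T ∈ powersetCard m (Ioi i), φ i.1 * ∑ x ∈ insert i T, (x.1 : ℚ)
      = φ i.1 * i.1 + φ i.1 * ∑ x ∈ T, (x.1 : ℚ) := by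
    intro T hT
    rw [mem_powersetCard] at hT
    rw [sum_insert (fun h => by have := hT.1 h; simp at this), mul_add]
  rw [sum_congr rfl h2, sum_add_distrib, sum_const, card_powersetCard, Fin.card_Ioi, ← mul_sum,
    sum_tails, nsmul_eq_mul]
  ring

lemma sum_weight_one {m b n : ℕ} (hn : n = (m + 1) + b) (φ : ℕ → ℚ) :
    ∑ g : TC (m+1) b n, φ (g.1 (Sum.inl 0)).1
      = ∑ i : Fin n, φ i.1 * ((n - 1 - i.1).choose m : ℚ) := by
  rw [← Finset.sum_fiberwise_of_maps_to (s := univ) (t := univ) (g := fun g : TC (m+1) b n => g.1 (Sum.inl 0))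
    (fun _ _ => mem_univ _)]
  apply sum_congr rfl
  intro i _
  have h1 : ∀ g ∈ univ.filter (fun g : TC (m+1) b n => g.1 (Sum.inl 0) = i),
      φ (g.1 (Sum.inl 0)).1 = φ i.1 := by
    intro g hg
    rw [mem_filter] at hg
    rw [hg.2]
  rw [sum_congr rfl h1, sum_first hn i (fun S => φ i.1)]
  rw [sum_const, card_powersetCard, Fin.card_Ioi, nsmul_eq_mul, mul_comm]

lemma le_inr {a b n : ℕ} (g : TC a b n) (t : Fin b) : t.1 ≤ (g.1 (Sum.inr t)).1 := by
  have h : (Iio t).card ≤ (Iio (g.1 (Sum.inr t))).card := by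
    apply card_le_card_of_injOn (fun k => g.1 (Sum.inr k))
    · intro k hk
      simp only [coe_Iio, Set.mem_Iio] at hk ⊢
      exact g.2.2 hk
    · intro x _ y _ h; exact g.2.2.injective h
  simpa using h

/-- comparison of the first element of chain 1 with element `t` of chain 2 -/
lemma first_lt_iff {m b n : ℕ} (g : TC (m+1) b n) (t : Fin b) :
    g.1 (Sum.inl 0) < g.1 (Sum.inr t) ↔ (g.1 (Sum.inl 0)).1 ≤ t.1 := by
  constructor
  · intro h
    have h1 : Iio (g.1 (Sum.inl 0)) ⊆ (Iio t).image (fun k => g.1 (Sum.inr k)) := by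
      intro q hq
      rw [mem_Iio] at hq
      rw [mem_image]
      rcases hx : g.1.symm q with a | k
      · exfalso
        have e : q = g.1 (Sum.inl a) := by rw [← hx]; simp
        rw [e] at hq
        exact absurd (g.2.1.lt_iff_lt.1 hq) (Fin.not_lt_zero a)
      · have e : q = g.1 (Sum.inr k) := by rw [← hx]; simp
        refine ⟨k, ?_, e.symm⟩
        rw [mem_Iio]
        rw [e] at hq
        exact g.2.2.lt_iff_lt.1 (hq.trans h)
    have h2 := (card_le_card h1).trans card_image_le
    simpa using h2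
  · intro h
    have h1 := le_inr g t
    rw [Fin.lt_def]
    apply lt_of_le_of_ne (h.trans h1)
    intro h3
    have := g.1.injective (Fin.ext h3)
    cases this

lemma inr_le {a b n : ℕ} (hn : n = a + b) (g : TC a b n) (t : Fin b) :
    (g.1 (Sum.inr t)).1 ≤ t.1 + a := by
  have h : (Ici t).card ≤ (Ici (g.1 (Sum.inr t))).card := by
    apply card_le_card_of_injOn (fun k => g.1 (Sum.inr k))
    · intro k hk
      simp only [coe_Ici, Set.mem_Ici] at hk ⊢
      exact g.2.2.monotone hk
    · intro x _ y _ h; exact g.2.2.injective h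
  rw [Fin.card_Ici, Fin.card_Ici] at h
  have := t.2; have := (g.1 (Sum.inr t)).2
  omega

end Pool.Agent.Q296.AH
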