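import Pool.Agent.Q296.AH.Main

namespace Pool.Agent.Q296.AH

open Finset

/-- numbers for the deleted poset -/
def w0 (l m j : ℕ) : ℕ := ∑ i ∈ range j, (m + l - i).descFactorial m
def a0 (l m j : ℕ) : ℕ := ∑ i ∈ range j, (m + l - i).descFactorial m * (2 * i + m * (i + (m + 1 + l)))
/-- numbers for the full poset -/
def w1 (l m j : ℕ) : ℕ := ∑ i ∈ range j, (j - i) * (m + l + 1 - i).descFactorial m
def a1 (l m j : ℕ) : ℕ :=
  ∑ i ∈ range j, (j - i) * (m + l + 1 - i).descFactorial m * (2 * i + m * (i + (m + 1 + (l + 1))))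

lemma numeric : 0 < w0 1018 30 55 ∧ 0 < w1 1018 30 55 ∧
    a1 1018 30 55 * w0 1018 30 55 + 2 * 85 * (w0 1018 30 55 * w1 1018 30 55)
      < a0 1018 30 55 * w1 1018 30 55 := by
  decide +kernel

lemma sum_trunc {n j : ℕ} (hj : j ≤ n) (F : ℕ → ℚ) (hF : ∀ i, j ≤ i → F i = 0) :
    ∑ i : Fin n, F i.1 = ∑ i ∈ range j, F i := by
  rw [Fin.sum_univ_eq_sum_range]
  symm
  apply sum_subset
  · intro i hi; rw [mem_range] at hi ⊢; omega
  · intro i _ hi
    rw [mem_range] at hi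
    exact hF i (by omega)

lemma chooseq (a m : ℕ) : (a.choose m : ℚ) = a.descFactorial m / m.factorial := by
  rw [Nat.descFactorial_eq_factorial_mul_choose]
  have : (m.factorial : ℚ) ≠ 0 := by exact_mod_cast m.factorial_ne_zero
  push_cast
  field_simp

lemma W0_eq {l m j : ℕ} (hjl : j ≤ l) :
    ∑ i : Fin (m + 1 + l), (if i.1 < j then (1:ℚ) else 0) * ((m + 1 + l - 1 - i.1).choose m : ℚ)
      = w0 l m j / m.factorial := by
  rw [sum_trunc (n := m + 1 + l) (j := j) (by omega)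
    (fun i => (if i < j then (1:ℚ) else 0) * ((m + 1 + l - 1 - i).choose m : ℚ))
    (by intro i hi; rw [if_neg (by omega), zero_mul])]
  unfold w0
  rw [Nat.cast_sum, sum_div]
  apply sum_congr rfl
  intro i hi
  rw [mem_range] at hi
  rw [if_pos hi, one_mul, chooseq]
  congr 3
  congr 1
  omega

lemma A0_eq {l m j : ℕ} (hjl : j ≤ l) :
    ∑ i : Fin (m + 1 + l), (if i.1 < j then (1:ℚ) else 0) *
        (((m + 1 + l - 1 - i.1).choose m : ℚ) * (i.1 + m * (i.1 + ((m + 1 + l : ℕ) : ℚ)) / 2))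
      = a0 l m j / (2 * m.factorial) := by
  rw [sum_trunc (n := m + 1 + l) (j := j) (by omega)
    (fun i => (if i < j then (1:ℚ) else 0) * (((m + 1 + l - 1 - i).choose m : ℚ) *
      (i + m * (i + ((m + 1 + l : ℕ) : ℚ)) / 2)))
    (by intro i hi; rw [if_neg (by omega), zero_mul])]
  unfold a0
  rw [Nat.cast_sum, sum_div]
  apply sum_congr rfl
  intro i hi
  rw [mem_range] at hi
  have e : m + 1 + l - 1 - i = m + l - i := by omega
  rw [if_pos hi, one_mul, chooseq, e]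
  have : (m.factorial : ℚ) ≠ 0 := by exact_mod_cast m.factorial_ne_zero
  push_cast
  field_simp

lemma W1_eq {l m j : ℕ} (hjl : j ≤ l) :
    ∑ i : Fin (m + 1 + (l + 1)), ((j - i.1 : ℕ) : ℚ) * ((m + 1 + (l + 1) - 1 - i.1).choose m : ℚ)
      = w1 l m j / m.factorial := by
  rw [sum_trunc (n := m + 1 + (l + 1)) (j := j) (by omega)
    (fun i => ((j - i : ℕ) : ℚ) * ((m + 1 + (l + 1) - 1 - i).choose m : ℚ))
    (by intro i hi; rw [Nat.sub_eq_zero_of_le hi]; simp)]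
  unfold w1
  rw [Nat.cast_sum, sum_div]
  apply sum_congr rfl
  intro i hi
  rw [mem_range] at hi
  have e : m + 1 + (l + 1) - 1 - i = m + l + 1 - i := by omega
  rw [chooseq, e]
  have : (m.factorial : ℚ) ≠ 0 := by exact_mod_cast m.factorial_ne_zero
  push_cast
  field_simp

lemma A1_eq {l m j : ℕ} (hjl : j ≤ l) :
    ∑ i : Fin (m + 1 + (l + 1)), ((j - i.1 : ℕ) : ℚ) *
        (((m + 1 + (l + 1) - 1 - i.1).choose m : ℚ) *
          (i.1 + m * (i.1 + ((m + 1 + (l + 1) : ℕ) : ℚ)) / 2))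
      = a1 l m j / (2 * m.factorial) := by
  rw [sum_trunc (n := m + 1 + (l + 1)) (j := j) (by omega)
    (fun i => ((j - i : ℕ) : ℚ) * (((m + 1 + (l + 1) - 1 - i).choose m : ℚ) *
      (i + m * (i + ((m + 1 + (l + 1) : ℕ) : ℚ)) / 2)))
    (by intro i hi; rw [Nat.sub_eq_zero_of_le hi]; simp)]
  unfold a1
  rw [Nat.cast_sum, sum_div]
  apply sum_congr rfl
  intro i hi
  rw [mem_range] at hi
  have e : m + 1 + (l + 1) - 1 - i = m + l + 1 - i := by omega
  rw [chooseq, e]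
  have : (m.factorial : ℚ) ≠ 0 := by exact_mod_cast m.factorial_ne_zero
  push_cast
  field_simp

lemma lower {l m j : ℕ} (hj1 : 1 ≤ j) (hjl : j ≤ l) (h0 : 0 < w0 l m j) (h1 : 0 < w1 l m j)
    (hnum : a1 l m j * w0 l m j + 2 * (j + m) * (w0 l m j * w1 l m j) < a0 l m j * w1 l m j) :
    ((m + 1 + (l + 1) : ℕ) : ℚ) - 1 <
      ∑ k, (avg (Pt l m j) (m + 1 + (l + 1)) (.d k)
        - avg {y : Pt l m j // y ≠ Pt.x} (m + 1 + l) ⟨.d k, by intro h; cases h⟩) := by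
  have hf : (0 : ℚ) < m.factorial := by exact_mod_cast m.factorial_pos
  have hN1 : (Fintype.card (LE (Pt l m j) (m + 1 + (l + 1))) : ℚ) = w1 l m j / m.factorial := by
    rw [← Fintype.card_of_bijective (Psi_bij hj1 hjl), card_idx rfl hjl, W1_eq hjl]
  have hN0 : (Fintype.card (LE {y : Pt l m j // y ≠ Pt.x} (m + 1 + l)) : ℚ)
      = w0 l m j / m.factorial := by
    rw [← Fintype.card_of_bijective (Phi_bij hj1 hjl), card_idx0 rfl, W0_eq hjl]
  have hT1 := total1 (l := l) (m := m) (j := j) rfl hj1 hjl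
  have hT0 := total0 (l := l) (m := m) (j := j) rfl hj1 hjl
  rw [A1_eq hjl, hN1] at hT1
  rw [A0_eq hjl, hN0] at hT0
  have hw0 : (0 : ℚ) < w0 l m j := by exact_mod_cast h0
  have hw1 : (0 : ℚ) < w1 l m j := by exact_mod_cast h1
  have hnum' : (a1 l m j : ℚ) * w0 l m j + 2 * (j + m) * (w0 l m j * w1 l m j)
      < a0 l m j * w1 l m j := by exact_mod_cast hnum
  rw [sum_sub_distrib]
  unfold avg
  rw [← sum_div, ← sum_div, hN1, hN0, hT0]
  set S1 : ℚ := ∑ k, ∑ f : LE (Pt l m j) (m + 1 + (l + 1)), (((f.1 (.d k)).1 : ℚ) + 1) with hS1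
  have hS : (w1 l m j / m.factorial : ℚ) * ((((m + 1 + (l + 1) : ℕ) : ℚ) * (((m + 1 + (l + 1) : ℕ) : ℚ) - 1) / 2 : ℚ)
      + l - (j + m)) - a1 l m j / (2 * m.factorial) ≤ S1 := hT1
  have hS2 : ((((m + 1 + (l + 1) : ℕ) : ℚ) * (((m + 1 + (l + 1) : ℕ) : ℚ) - 1) / 2 : ℚ)
      + l - (j + m)) - a1 l m j / (2 * w1 l m j) ≤ S1 / (w1 l m j / m.factorial) := by
    rw [le_div_iff₀ (by positivity)]
    refine le_trans (le_of_eq ?_) hS
    field_simp
  have h3 : (w0 l m j / m.factorial * ((((m + 1 + l : ℕ) : ℚ) * (((m + 1 + l : ℕ) : ℚ) - 1) / 2 : ℚ) + l)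
      - a0 l m j / (2 * m.factorial)) / (w0 l m j / m.factorial)
      = ((((m + 1 + l : ℕ) : ℚ) * (((m + 1 + l : ℕ) : ℚ) - 1) / 2 : ℚ) + l)
        - a0 l m j / (2 * w0 l m j) := by
    field_simp
  rw [h3]
  have h4 : (a1 l m j : ℚ) / (2 * w1 l m j) + (j + m) < a0 l m j / (2 * w0 l m j) := by
    rw [div_add' _ _ _ (by positivity), div_lt_div_iff₀ (by positivity) (by positivity)]
    nlinarith
  have h5 : ((((m + 1 + (l + 1) : ℕ) : ℚ) * (((m + 1 + (l + 1) : ℕ) : ℚ) - 1) / 2 : ℚ))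
      - ((((m + 1 + l : ℕ) : ℚ) * (((m + 1 + l : ℕ) : ℚ) - 1) / 2 : ℚ))
      = ((m + 1 + (l + 1) : ℕ) : ℚ) - 1 := by
    push_cast; ring
  linarith

end Pool.Agent.Q296.AH
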