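import Pool.Agent.Q296.AH.Poset

namespace Pool.Agent.Q296.AH

open Finset

variable {l m j : ℕ}

/-- `P - x` as a sum type -/
def pxEquiv (l m j : ℕ) : {y : Pt l m j // y ≠ Pt.x} ≃ Fin (m + 1) ⊕ Fin l where
  toFun y := match y with
    | ⟨.c a, _⟩ => Sum.inl a
    | ⟨.x, h⟩ => (h rfl).elim
    | ⟨.d k, _⟩ => Sum.inr k
  invFun
    | Sum.inl a => ⟨.c a, by intro h; cases h⟩
    | Sum.inr k => ⟨.d k, by intro h; cases h⟩
  left_inv y := by
    rcases y with ⟨a | _ | k, h⟩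
    · rfl
    · exact (h rfl).elim
    · rfl
  right_inv u := by rcases u with a | k <;> rfl

lemma pxEquiv_symm_inl (a : Fin (m+1)) :
    ((pxEquiv l m j).symm (Sum.inl a)) = ⟨.c a, by intro h; cases h⟩ := rfl

lemma pxEquiv_symm_inr (k : Fin l) :
    ((pxEquiv l m j).symm (Sum.inr k)) = ⟨.d k, by intro h; cases h⟩ := rfl

lemma mono_iff' {n : ℕ} (hj1 : 1 ≤ j) (hjl : j ≤ l) (g : Fin (m+1) ⊕ Fin l ≃ Fin n)
    (hg : StrictMono (fun a => g (Sum.inl a)) ∧ StrictMono (fun k => g (Sum.inr k))) :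
    (∀ u v, u < v → ((pxEquiv l m j).trans g) u < ((pxEquiv l m j).trans g) v) ↔
      (g (Sum.inl 0)).1 < j := by
  constructor
  · intro h
    have h1 := h ((pxEquiv l m j).symm (Sum.inl 0)) ((pxEquiv l m j).symm (Sum.inr ⟨j - 1, by omega⟩))
      (by
        rw [pxEquiv_symm_inl, pxEquiv_symm_inr, Subtype.mk_lt_mk, inl_lt_some]
        refine ⟨rfl, ?_⟩
        change j ≤ j - 1 + 1
        omega)
    simp only [Equiv.trans_apply, Equiv.apply_symm_apply] at h1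
    have h2 := (first_lt_iff (⟨g, hg⟩ : TC (m+1) l n) ⟨j - 1, by omega⟩).1 h1
    change (g (Sum.inl 0)).1 ≤ j - 1 at h2
    omega
  · intro h
    rintro ⟨u, hu⟩ ⟨v, hv⟩ huv
    rw [Subtype.mk_lt_mk] at huv
    rcases u with a | _ | k
    · rcases v with a' | _ | k'
      · exact hg.1 (inl_lt_inl.1 huv)
      · exact (hv rfl).elim
      · obtain ⟨e1, e2⟩ := inl_lt_some.1 huv
        subst e1
        exact (first_lt_iff (⟨g, hg⟩ : TC (m+1) l n) k').2 (by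
          change (g (Sum.inl 0)).1 ≤ k'.1
          omega)
    · exact (hu rfl).elim
    · rcases v with a' | _ | k'
      · exact absurd huv not_some_lt_inl
      · exact (hv rfl).elim
      · exact hg.2 (some_lt_some.1 huv)

/-- index set for linear extensions of `P - x` -/
abbrev Idx0 (l m j n : ℕ) : Type := {g : TC (m+1) l n // (g.1 (Sum.inl 0)).1 < j}

noncomputable instance (l m j n : ℕ) : Fintype (Idx0 l m j n) := Fintype.ofFinite _

/-- bijection -/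
def Phi {n : ℕ} (hj1 : 1 ≤ j) (hjl : j ≤ l) (g : Idx0 l m j n) :
    LE {y : Pt l m j // y ≠ Pt.x} n :=
  ⟨(pxEquiv l m j).trans g.1.1, (mono_iff' hj1 hjl g.1.1 g.1.2).2 g.2⟩

lemma Phi_bij {n : ℕ} (hj1 : 1 ≤ j) (hjl : j ≤ l) :
    Function.Bijective (Phi hj1 hjl : Idx0 l m j n → _) := by
  constructor
  · rintro ⟨⟨g, hg⟩, h1⟩ ⟨⟨g', hg'⟩, h1'⟩ h
    have h2 : (pxEquiv l m j).trans g = (pxEquiv l m j).trans g' := congrArg Subtype.val h
    have h3 : g = g' := by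
      apply Equiv.ext
      intro u
      have := congrArg (fun e => e ((pxEquiv l m j).symm u)) h2
      simpa using this
    subst h3
    rfl
  · rintro ⟨f, hf⟩
    have hg : StrictMono (fun a => ((pxEquiv l m j).symm.trans f) (Sum.inl a)) ∧
        StrictMono (fun k => ((pxEquiv l m j).symm.trans f) (Sum.inr k)) := by
      constructor
      · intro a b hab
        apply hf
        rw [pxEquiv_symm_inl, pxEquiv_symm_inl, Subtype.mk_lt_mk]
        exact inl_lt_inl.2 hab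
      · intro a b hab
        apply hf
        rw [pxEquiv_symm_inr, pxEquiv_symm_inr, Subtype.mk_lt_mk]
        exact some_lt_some.2 hab
    have e : (pxEquiv l m j).trans ((pxEquiv l m j).symm.trans f) = f := by
      apply Equiv.ext; intro u; simp
    refine ⟨⟨⟨(pxEquiv l m j).symm.trans f, hg⟩, ?_⟩, ?_⟩
    · rw [← mono_iff' hj1 hjl _ hg, e]
      exact hf
    · apply Subtype.ext
      exact e

/-- average height -/
noncomputable def avg (α : Type) [PartialOrder α] [Fintype α] (n : ℕ) (y : α) : ℚ :=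
  (∑ f : LE α n, (((f.1 y).1 : ℚ) + 1)) / Fintype.card (LE α n)

lemma sum_fin_val (n : ℕ) : ∑ i : Fin n, (i.1 : ℚ) = n * (n - 1) / 2 := by
  induction n with
  | zero => simp
  | succ n ih => rw [Fin.sum_univ_castSucc]; simp only [Fin.val_castSucc, ih, Fin.val_last]; push_cast; ring

/-! ### The deleted poset -/

lemma sum_idx0 {n : ℕ} (F : TC (m+1) l n → ℚ) :
    ∑ g : Idx0 l m j n, F g.1 = ∑ g : TC (m+1) l n, (if (g.1 (Sum.inl 0)).1 < j then (1:ℚ) else 0) * F g := by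
  rw [← Finset.sum_subtype (univ.filter (fun g : TC (m+1) l n => (g.1 (Sum.inl 0)).1 < j))
    (by intro x; simp) F]
  rw [Finset.sum_filter]
  apply sum_congr rfl
  intro g _
  split_ifs <;> simp

lemma card_idx0 {n : ℕ} (hn : n = (m+1) + l) :
    (Fintype.card (Idx0 l m j n) : ℚ)
      = ∑ i : Fin n, (if i.1 < j then (1:ℚ) else 0) * ((n - 1 - i.1).choose m : ℚ) := by
  rw [← sum_weight_one hn (fun i => if i < j then (1:ℚ) else 0)]
  have := sum_idx0 (l := l) (m := m) (j := j) (n := n) (fun _ => 1)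
  simp only [sum_const, card_univ, nsmul_eq_mul, mul_one] at this
  exact this

lemma sumc_idx0 {n : ℕ} (hn : n = (m+1) + l) :
    ∑ g : Idx0 l m j n, ∑ a, ((g.1.1 (Sum.inl a)).1 : ℚ)
      = ∑ i : Fin n, (if i.1 < j then (1:ℚ) else 0) *
        (((n - 1 - i.1).choose m : ℚ) * (i.1 + m * (i.1 + n) / 2)) := by
  rw [← sum_weight hn (fun i => if i < j then (1:ℚ) else 0)]
  exact sum_idx0 (fun g => ∑ a, ((g.1 (Sum.inl a)).1 : ℚ))

lemma sum_d0 {n : ℕ} (f : {y : Pt l m j // y ≠ Pt.x} ≃ Fin n) :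
    ∑ k, ((f ⟨.d k, by intro h; cases h⟩).1 : ℚ)
      = n * (n - 1) / 2 - ∑ a, ((f ⟨.c a, by intro h; cases h⟩).1 : ℚ) := by
  have h := Equiv.sum_comp ((pxEquiv l m j).symm.trans f) (fun i : Fin n => (i.1 : ℚ))
  rw [sum_fin_val, Fintype.sum_sum_type] at h
  simp only [Equiv.trans_apply, pxEquiv_symm_inl, pxEquiv_symm_inr] at h
  linarith

lemma total0 {n : ℕ} (hn : n = (m+1) + l) (hj1 : 1 ≤ j) (hjl : j ≤ l) :
    ∑ k, ∑ f : LE {y : Pt l m j // y ≠ Pt.x} n, (((f.1 ⟨.d k, by intro h; cases h⟩).1 : ℚ) + 1)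
      = Fintype.card (LE {y : Pt l m j // y ≠ Pt.x} n) * ((n * (n - 1) / 2 : ℚ) + l)
        - ∑ i : Fin n, (if i.1 < j then (1:ℚ) else 0) *
        (((n - 1 - i.1).choose m : ℚ) * (i.1 + m * (i.1 + n) / 2)) := by
  rw [← sumc_idx0 hn, sum_comm]
  have h1 : ∑ g : Idx0 l m j n, ∑ a, ((g.1.1 (Sum.inl a)).1 : ℚ)
      = ∑ f : LE {y : Pt l m j // y ≠ Pt.x} n, ∑ a, ((f.1 ⟨.c a, by intro h; cases h⟩).1 : ℚ) :=
    Function.Bijective.sum_comp (Phi_bij hj1 hjl)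
      (fun f : LE {y : Pt l m j // y ≠ Pt.x} n => ∑ a, ((f.1 ⟨.c a, by intro h; cases h⟩).1 : ℚ))
  rw [h1, ← card_univ, ← nsmul_eq_mul, ← sum_const, ← sum_sub_distrib]
  apply sum_congr rfl
  intro f _
  rw [sum_add_distrib, sum_d0 f.1]
  simp
  ring

/-! ### The full poset -/

lemma card_between (hjl : j ≤ l) (i : ℕ) :
    (univ.filter (fun t : Fin (l+1) => i ≤ t.1 ∧ t.1 < j)).card = j - i := by
  have h : (univ.filter (fun t : Fin (l+1) => i ≤ t.1 ∧ t.1 < j)).map Fin.valEmbedding = Ico i j := by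
    ext x
    simp only [mem_map, mem_filter, mem_univ, true_and, Fin.valEmbedding_apply, mem_Ico]
    constructor
    · rintro ⟨t, ht, rfl⟩; exact ht
    · intro hx; exact ⟨⟨x, by omega⟩, hx, rfl⟩
  rw [← card_map Fin.valEmbedding, h, Nat.card_Ico]

lemma sum_idx {n : ℕ} (hjl : j ≤ l) (F : TC (m+1) (l+1) n → ℚ) :
    ∑ p : Idx l m j n, F p.1.1
      = ∑ g : TC (m+1) (l+1) n, ((j - (g.1 (Sum.inl 0)).1 : ℕ) : ℚ) * F g := by
  rw [← Finset.sum_subtype (univ.filter (fun p : TC (m+1) (l+1) n × Fin (l+1) =>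
      (p.1.1 (Sum.inl 0)).1 ≤ p.2.1 ∧ p.2.1 < j)) (by intro x; simp) (fun p => F p.1)]
  rw [Finset.sum_filter, Fintype.sum_prod_type]
  apply sum_congr rfl
  intro g _
  rw [← Finset.sum_filter]
  simp only
  rw [sum_const, card_between hjl, nsmul_eq_mul]

lemma card_idx {n : ℕ} (hn : n = (m+1) + (l+1)) (hjl : j ≤ l) :
    (Fintype.card (Idx l m j n) : ℚ)
      = ∑ i : Fin n, ((j - i.1 : ℕ) : ℚ) * ((n - 1 - i.1).choose m : ℚ) := by
  rw [← sum_weight_one hn (fun i => ((j - i : ℕ) : ℚ))]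
  have := sum_idx (l := l) (m := m) (j := j) (n := n) hjl (fun _ => 1)
  simp only [sum_const, card_univ, nsmul_eq_mul, mul_one] at this
  exact this

lemma sumc_idx {n : ℕ} (hn : n = (m+1) + (l+1)) (hjl : j ≤ l) :
    ∑ p : Idx l m j n, ∑ a, ((p.1.1.1 (Sum.inl a)).1 : ℚ)
      = ∑ i : Fin n, ((j - i.1 : ℕ) : ℚ) *
        (((n - 1 - i.1).choose m : ℚ) * (i.1 + m * (i.1 + n) / 2)) := by
  rw [← sum_weight hn (fun i => ((j - i : ℕ) : ℚ))]
  exact sum_idx hjl (fun g => ∑ a, ((g.1 (Sum.inl a)).1 : ℚ))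

lemma sum_d {n : ℕ} (f : Pt l m j ≃ Fin n) :
    ∑ k, ((f (.d k)).1 : ℚ)
      = n * (n - 1) / 2 - ∑ a, ((f (.c a)).1 : ℚ) - ((f .x).1 : ℚ) := by
  have h := Equiv.sum_comp ((Pt.equiv l m j).symm.trans f) (fun i : Fin n => (i.1 : ℚ))
  rw [sum_fin_val, Fintype.sum_sum_type, Fintype.sum_option] at h
  have e1 : ∀ a, ((Pt.equiv l m j).symm.trans f) (Sum.inl a) = f (.c a) := fun _ => rfl
  have e2 : ((Pt.equiv l m j).symm.trans f) (Sum.inr none) = f .x := rfl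
  have e3 : ∀ k, ((Pt.equiv l m j).symm.trans f) (Sum.inr (some k)) = f (.d k) := fun _ => rfl
  simp only [e1, e2, e3] at h
  linarith

lemma x_le {n : ℕ} (hn : n = (m+1) + (l+1)) (p : Idx l m j n) :
    (((Psi p).1 .x).1 : ℚ) ≤ j + m := by
  obtain ⟨⟨g, t⟩, h1, h2⟩ := p
  change (((toE g.1 t : Pt l m j ≃ Fin n) .x).1 : ℚ) ≤ _
  rw [toE_none]
  have h3 := inr_le hn g t
  have h4 : t.1 < j := h2
  have : (g.1 (Sum.inr t)).1 ≤ j + m := by omega
  exact_mod_cast this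

lemma total1 {n : ℕ} (hn : n = (m+1) + (l+1)) (hj1 : 1 ≤ j) (hjl : j ≤ l) :
    Fintype.card (LE (Pt l m j) n) * ((n * (n - 1) / 2 : ℚ) + l - (j + m))
        - ∑ i : Fin n, ((j - i.1 : ℕ) : ℚ) *
        (((n - 1 - i.1).choose m : ℚ) * (i.1 + m * (i.1 + n) / 2)) ≤
    ∑ k, ∑ f : LE (Pt l m j) n, (((f.1 (.d k)).1 : ℚ) + 1) := by
  rw [← sumc_idx hn hjl]
  conv_rhs => rw [sum_comm]
  have h1 : ∑ p : Idx l m j n, ∑ a, ((p.1.1.1 (Sum.inl a)).1 : ℚ)
      = ∑ f : LE (Pt l m j) n, ∑ a, ((f.1 (.c a)).1 : ℚ) :=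
    Function.Bijective.sum_comp (Psi_bij hj1 hjl)
      (fun f : LE (Pt l m j) n => ∑ a, ((f.1 (.c a)).1 : ℚ))
  rw [h1, ← card_univ, ← nsmul_eq_mul, ← sum_const, ← sum_sub_distrib]
  apply sum_le_sum
  intro f _
  obtain ⟨p, rfl⟩ := (Psi_bij hj1 hjl).2 f
  have h2 := x_le hn p
  rw [sum_add_distrib, sum_d (Psi p).1]
  simp only [sum_const, card_univ, Fintype.card_fin, nsmul_eq_mul, mul_one]
  linarith

end Pool.Agent.Q296.AH
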