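import Pool.Agent.Q296.AH.Chains

/-! The poset: a chain of `m+1` elements with bottom `z`, a chain of `l` elements `d_0<...`,
and `x` with `z < x < d_{j-1}`. -/

namespace Pool.Agent.Q296.AH

open Finset

/-- linear extensions -/
abbrev LE (α : Type) [PartialOrder α] (n : ℕ) : Type :=
  {f : α ≃ Fin n // ∀ u v, u < v → f u < f v}

noncomputable instance (α : Type) [PartialOrder α] [Fintype α] (n : ℕ) : Fintype (LE α n) :=
  Fintype.ofFinite _

/-- underlying type -/
inductive Pt (l m j : ℕ) : Type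
  | c (a : Fin (m + 1)) : Pt l m j
  | x : Pt l m j
  | d (k : Fin l) : Pt l m j
  deriving DecidableEq

/-- as a sum type -/
def Pt.equiv (l m j : ℕ) : Pt l m j ≃ Fin (m + 1) ⊕ Option (Fin l) where
  toFun
    | .c a => Sum.inl a
    | .x => Sum.inr none
    | .d k => Sum.inr (some k)
  invFun
    | Sum.inl a => .c a
    | Sum.inr none => .x
    | Sum.inr (some k) => .d k
  left_inv u := by cases u <;> rfl
  right_inv u := by rcases u with a | (_ | k) <;> rfl

instance (l m j : ℕ) : Fintype (Pt l m j) := Fintype.ofEquiv _ (Pt.equiv l m j).symm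

lemma card_Pt (l m j : ℕ) : Fintype.card (Pt l m j) = (m + 1) + (l + 1) := by
  rw [Fintype.card_congr (Pt.equiv l m j)]; simp

/-- the order relation -/
def leP (l m j : ℕ) : Pt l m j → Pt l m j → Prop
  | .c a, .c b => a ≤ b
  | .c a, .x => a = 0
  | .c a, .d k => a = 0 ∧ j ≤ k.1 + 1
  | .x, .c _ => False
  | .x, .x => True
  | .x, .d k => j ≤ k.1 + 1
  | .d _, .c _ => False
  | .d _, .x => False
  | .d k, .d k' => k ≤ k'

instance (l m j : ℕ) : PartialOrder (Pt l m j) where
  le := leP l m j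
  le_refl u := by
    rcases u with a | _ | k
    · exact le_refl a
    · exact trivial
    · exact le_refl k
  le_trans u v w := by
    rcases u with a | _ | k <;> rcases v with a' | _ | k' <;> rcases w with a'' | _ | k''
      <;> simp only [leP] <;> intro h1 h2
    all_goals first
      | exact le_trans h1 h2
      | exact trivial
      | (subst h2; exact Fin.le_zero_iff.1 h1)
      | (obtain ⟨h3, h4⟩ := h2; subst h3; exact ⟨Fin.le_zero_iff.1 h1, h4⟩)
      | exact ⟨h1, h2⟩
      | exact h1
      | exact h2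
      | exact h1.elim
      | exact h2.elim
      | (have h2' : k'.1 ≤ k''.1 := h2; exact ⟨h1.1, by omega⟩)
      | (have h2' : k'.1 ≤ k''.1 := h2; omega)
  le_antisymm u v := by
    rcases u with a | _ | k <;> rcases v with a' | _ | k'
      <;> simp only [leP] <;> intro h1 h2
    · exact congrArg Pt.c (le_antisymm h1 h2)
    · exact h2.elim
    · exact h2.elim
    · exact h1.elim
    · trivial
    · exact h2.elim
    · exact h1.elim
    · exact h1.elim
    · exact congrArg Pt.d (le_antisymm h1 h2)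

variable {l m j : ℕ}

lemma inl_lt_inl {a b : Fin (m+1)} : ((.c a : Pt l m j) < .c b) ↔ a < b := by
  rw [lt_iff_le_not_ge, lt_iff_le_not_ge]; rfl

lemma some_lt_some {a b : Fin l} : ((.d a : Pt l m j) < .d b) ↔ a < b := by
  rw [lt_iff_le_not_ge, lt_iff_le_not_ge]; rfl

lemma inl_lt_none {a : Fin (m+1)} : ((.c a : Pt l m j) < .x) ↔ a = 0 := by
  rw [lt_iff_le_not_ge]
  exact ⟨fun h => h.1, fun h => ⟨h, fun h' => h'⟩⟩

lemma inl_lt_some {a : Fin (m+1)} {k : Fin l} :
    ((.c a : Pt l m j) < .d k) ↔ (a = 0 ∧ j ≤ k.1 + 1) := by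
  rw [lt_iff_le_not_ge]
  exact ⟨fun h => h.1, fun h => ⟨h, fun h' => h'⟩⟩

lemma none_lt_some {k : Fin l} :
    ((.x : Pt l m j) < .d k) ↔ (j ≤ k.1 + 1) := by
  rw [lt_iff_le_not_ge]
  exact ⟨fun h => h.1, fun h => ⟨h, fun h' => h'⟩⟩

lemma not_none_lt_inl {a : Fin (m+1)} : ¬ ((.x : Pt l m j) < .c a) := by
  intro h; exact (h.le : leP l m j _ _)

lemma not_some_lt_inl {a : Fin (m+1)} {k : Fin l} : ¬ ((.d k : Pt l m j) < .c a) := by
  intro h; exact (h.le : leP l m j _ _)

lemma not_some_lt_none {k : Fin l} : ¬ ((.d k : Pt l m j) < .x) := by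
  intro h; exact (h.le : leP l m j _ _)

/-- characterisation of linear extensions of the poset -/
lemma mono_iff {n : ℕ} (f : Pt l m j ≃ Fin n) :
    (∀ u v, u < v → f u < f v) ↔
      StrictMono (fun a => f (.c a)) ∧ StrictMono (fun k => f (.d k)) ∧
      f (.c 0) < f .x ∧ ∀ k : Fin l, j ≤ k.1 + 1 → f .x < f (.d k) := by
  constructor
  · intro h
    exact ⟨fun a b hab => h _ _ (inl_lt_inl.2 hab), fun a b hab => h _ _ (some_lt_some.2 hab),
      h _ _ (inl_lt_none.2 rfl), fun k hk => h _ _ (none_lt_some.2 hk)⟩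
  · rintro ⟨h1, h2, h3, h4⟩ u v huv
    rcases u with a | _ | k <;> rcases v with a' | _ | k'
    · exact h1 (inl_lt_inl.1 huv)
    · rw [inl_lt_none.1 huv]; exact h3
    · obtain ⟨e1, e2⟩ := inl_lt_some.1 huv
      rw [e1]; exact h3.trans (h4 _ e2)
    · exact absurd huv not_none_lt_inl
    · exact absurd huv (lt_irrefl _)
    · exact h4 _ (none_lt_some.1 huv)
    · exact absurd huv not_some_lt_inl
    · exact absurd huv not_some_lt_none
    · exact h2 (some_lt_some.1 huv)

/-- index set for the linear extensions -/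
abbrev Idx (l m j n : ℕ) : Type :=
  {p : TC (m+1) (l+1) n × Fin (l+1) // (p.1.1 (Sum.inl 0)).1 ≤ p.2.1 ∧ p.2.1 < j}

noncomputable instance (l m j n : ℕ) : Fintype (Idx l m j n) := Fintype.ofFinite _

/-- the bijection underlying a linear extension -/
def toE {n : ℕ} (g : Fin (m+1) ⊕ Fin (l+1) ≃ Fin n) (t : Fin (l+1)) : Pt l m j ≃ Fin n :=
  (Pt.equiv l m j).trans ((Equiv.sumCongr (Equiv.refl _) (finSuccEquiv' t).symm).trans g)

lemma toE_inl {n : ℕ} (g : Fin (m+1) ⊕ Fin (l+1) ≃ Fin n) (t : Fin (l+1)) (a : Fin (m+1)) :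
    (toE g t : Pt l m j ≃ Fin n) (.c a) = g (Sum.inl a) := rfl

lemma toE_none {n : ℕ} (g : Fin (m+1) ⊕ Fin (l+1) ≃ Fin n) (t : Fin (l+1)) :
    (toE g t : Pt l m j ≃ Fin n) .x = g (Sum.inr t) := by
  change g (Sum.inr ((finSuccEquiv' t).symm none)) = _
  rw [finSuccEquiv'_symm_none]

lemma toE_some {n : ℕ} (g : Fin (m+1) ⊕ Fin (l+1) ≃ Fin n) (t : Fin (l+1)) (k : Fin l) :
    (toE g t : Pt l m j ≃ Fin n) (.d k) = g (Sum.inr (t.succAbove k)) := by
  change g (Sum.inr ((finSuccEquiv' t).symm (some k))) = _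
  rw [finSuccEquiv'_symm_some]

lemma toE_mono {n : ℕ} (p : Idx l m j n) :
    ∀ u v : Pt l m j, u < v → (toE p.1.1.1 p.1.2 : Pt l m j ≃ Fin n) u < toE p.1.1.1 p.1.2 v := by
  rw [mono_iff]
  obtain ⟨⟨g, t⟩, h1, h2⟩ := p
  simp only [toE_inl, toE_none, toE_some]
  simp only at h1 h2
  refine ⟨g.2.1, ?_, (first_lt_iff g t).2 h1, ?_⟩
  · intro a b hab
    exact g.2.2 (Fin.strictMono_succAbove t hab)
  · intro k hk
    apply g.2.2
    rw [Fin.succAbove_of_le_castSucc t k (by rw [Fin.le_def]; simp; omega)]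
    rw [Fin.lt_def]; simp; omega

/-- the bijection between indices and linear extensions -/
def Psi {n : ℕ} (p : Idx l m j n) : LE (Pt l m j) n := ⟨toE p.1.1.1 p.1.2, toE_mono p⟩

lemma seg {n : ℕ} (h : Fin l → Fin n) (hh : StrictMono h) (q : Fin n) (k : Fin l) :
    h k < q ↔ k.1 < (univ.filter (fun k => h k < q)).card := by
  constructor
  · intro hk
    have h1 : Iic k ⊆ univ.filter (fun k => h k < q) := by
      intro k' hk'
      rw [mem_Iic] at hk'
      rw [mem_filter]
      exact ⟨mem_univ _, lt_of_le_of_lt (hh.monotone hk') hk⟩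
    have h2 := card_le_card h1
    rw [Fin.card_Iic] at h2
    omega
  · intro hk
    by_contra hq
    push Not at hq
    have h1 : univ.filter (fun k => h k < q) ⊆ Iio k := by
      intro k' hk'
      rw [mem_filter] at hk'
      rw [mem_Iio]
      exact hh.lt_iff_lt.1 (lt_of_lt_of_le hk'.2 hq)
    have h2 := card_le_card h1
    rw [Fin.card_Iio] at h2
    omega

lemma Psi_bij {n : ℕ} (hj1 : 1 ≤ j) (hjl : j ≤ l) :
    Function.Bijective (Psi : Idx l m j n → LE (Pt l m j) n) := by
  constructor
  · rintro ⟨⟨g, t⟩, h1, h2⟩ ⟨⟨g', t'⟩, h1', h2'⟩ h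
    have hf : (toE g.1 t : Pt l m j ≃ Fin n) = toE g'.1 t' := congrArg Subtype.val h
    have e0 : ∀ a, g.1 (Sum.inl a) = g'.1 (Sum.inl a) := fun a => by
      have := congrArg (fun f : Pt l m j ≃ Fin n => f (.c a)) hf
      simpa [toE_inl] using this
    have e1 : g.1 (Sum.inr t) = g'.1 (Sum.inr t') := by
      have := congrArg (fun f : Pt l m j ≃ Fin n => f .x) hf
      simpa [toE_none] using this
    have e2 : ∀ k, g.1 (Sum.inr (t.succAbove k)) = g'.1 (Sum.inr (t'.succAbove k)) := fun k => by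
      have := congrArg (fun f : Pt l m j ≃ Fin n => f (.d k)) hf
      simpa [toE_some] using this
    have e3 : ∀ k : Fin l, (k.castSucc < t ↔ k.castSucc < t') := by
      intro k
      rw [← Fin.succAbove_lt_iff_castSucc_lt t k, ← Fin.succAbove_lt_iff_castSucc_lt t' k]
      rw [← g.2.2.lt_iff_lt, ← g'.2.2.lt_iff_lt]
      simp only [e1, e2]
    have e4 : t = t' := by
      rcases lt_trichotomy t t' with h | h | h
      · exfalso
        have hl : t.1 < l := by have := t'.2; have : t.1 < t'.1 := h; omega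
        have := (e3 ⟨t.1, hl⟩).2 h
        exact absurd this (lt_irrefl _)
      · exact h
      · exfalso
        have hl : t'.1 < l := by have := t.2; have : t'.1 < t.1 := h; omega
        have := (e3 ⟨t'.1, hl⟩).1 h
        exact absurd this (lt_irrefl _)
    subst e4
    have e5 : g = g' := by
      apply Subtype.ext
      apply Equiv.ext
      rintro (a | e)
      · exact e0 a
      · rcases Fin.eq_self_or_eq_succAbove t e with rfl | ⟨k, rfl⟩
        · exact e1
        · exact e2 k
    subst e5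
    rfl
  · rintro ⟨f, hf⟩
    obtain ⟨h1, h2, h3, h4⟩ := (mono_iff f).1 hf
    set c := (univ.filter (fun k : Fin l => f (.d k) < f .x)).card with hc
    have hcl : c ≤ l := by
      have := card_filter_le (univ : Finset (Fin l)) (fun k : Fin l => f (.d k) < f .x)
      simpa using this
    set t : Fin (l+1) := ⟨c, by omega⟩ with ht
    have hseg : ∀ k : Fin l, f (.d k) < f .x ↔ k.1 < c :=
      fun k => seg _ h2 _ k
    set g : Fin (m+1) ⊕ Fin (l+1) ≃ Fin n :=
      ((Equiv.sumCongr (Equiv.refl _) (finSuccEquiv' t)).trans (Pt.equiv l m j).symm).trans f with hg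
    have g0 : ∀ a, g (Sum.inl a) = f (.c a) := fun a => rfl
    have g1 : g (Sum.inr t) = f .x := by
      change f ((Pt.equiv l m j).symm (Sum.inr (finSuccEquiv' t t))) = _
      rw [finSuccEquiv'_at]; rfl
    have g2 : ∀ k, g (Sum.inr (t.succAbove k)) = f (.d k) := fun k => by
      change f ((Pt.equiv l m j).symm (Sum.inr (finSuccEquiv' t (t.succAbove k)))) = _
      rw [finSuccEquiv'_succAbove]; rfl
    have hmono : StrictMono (fun e => g (Sum.inr e)) := by
      intro e e' hee
      rcases Fin.eq_self_or_eq_succAbove t e with rfl | ⟨k, rfl⟩ <;>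
        rcases Fin.eq_self_or_eq_succAbove t e' with rfl | ⟨k', rfl⟩
      · exact absurd hee (lt_irrefl _)
      · simp only [g1, g2]
        have := (Fin.lt_succAbove_iff_le_castSucc t k').1 hee
        have h5 : ¬ f (.d k') < f .x := by
          rw [hseg]; rw [Fin.le_def] at this; simp [ht] at this; omega
        push Not at h5
        apply lt_of_le_of_ne h5
        intro h6
        have := f.injective h6
        cases this
      · simp only [g1, g2]
        have := (Fin.succAbove_lt_iff_castSucc_lt t k).1 hee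
        rw [hseg]; rw [Fin.lt_def] at this; simpa [ht] using this
      · simp only [g2]
        exact h2 ((Fin.strictMono_succAbove t).lt_iff_lt.1 hee)
    have hmono1 : StrictMono (fun e => g (Sum.inl e)) := h1
    refine ⟨⟨(⟨g, hmono1, hmono⟩, t), ?_, ?_⟩, ?_⟩
    · rw [← first_lt_iff (⟨g, hmono1, hmono⟩ : TC (m+1) (l+1) n) t]
      change g (Sum.inl 0) < g (Sum.inr t)
      rw [g1, g0]; exact h3
    · change c < j
      by_contra hcj
      push Not at hcj
      have h5 := (hseg ⟨j - 1, by omega⟩).2 (by simp; omega)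
      have h6 := h4 ⟨j - 1, by omega⟩ (by simp; omega)
      exact absurd h5 (not_lt.2 h6.le)
    · apply Subtype.ext
      apply Equiv.ext
      rintro (a | _ | k)
      · rfl
      · change (toE g t : Pt l m j ≃ Fin n) .x = _
        rw [toE_none, g1]
      · change (toE g t : Pt l m j ≃ Fin n) (.d k) = _
        rw [toE_some, g2]

end Pool.Agent.Q296.AH
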